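import Pool.Agent.U592.Shanks.Calc

/-!
The weak Shanks conjecture on the bidisk fails, for every index `n ≥ 2` of the
degree-lexicographic ordering, and holds for `n ≤ 1`.

The counterexample for the index `n` is
`f = (2 + z₁ ^ k * z₂ ^ l) ^ 2 * (3 + 2 * z₁ ^ k) * (3 + 2 * z₂ ^ l)`, where `k` and `l` are the
largest exponents such that `z₁ ^ k` and `z₂ ^ l` belong to `P n`. Its `n`-th optimal
approximant is `(295380 - 148824 * (z₁ ^ k + z₂ ^ l)) / 23394573`.
-/

namespace Pool.Agent.Results.MP_52e642_an.WeakShanksFails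

open MvPolynomial Pool.Agent.U592.Shanks

/-- For every `n ≥ 2` there is a polynomial `f` without zeros on the closed bidisk whose `n`-th
optimal polynomial approximant (which is unique) has a zero in the open bidisk. For `n ≤ 1` and
any polynomial `f` with `f(0) ≠ 0` the approximant has no zero in the closed bidisk. -/
theorem result :
    (∀ n : ℕ, 2 ≤ n → ∃ f q : MvPolynomial (Fin 2) ℂ,
      (∀ z : Fin 2 → ℂ, (∀ i, ‖z i‖ ≤ 1) → eval z f ≠ 0) ∧
      IsOPA f n q ∧ (∀ p : MvPolynomial (Fin 2) ℂ, IsOPA f n p → p = q) ∧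
      ∃ z : Fin 2 → ℂ, (∀ i, ‖z i‖ < 1) ∧ eval z q = 0) ∧
    (∀ n : ℕ, n ≤ 1 → ∀ f : MvPolynomial (Fin 2) ℂ, eval 0 f ≠ 0 →
      ∀ q : MvPolynomial (Fin 2) ℂ, IsOPA f n q →
      ∀ z : Fin 2 → ℂ, (∀ i, ‖z i‖ ≤ 1) → eval z q ≠ 0) :=
  ⟨fun _ hn => counterexample hn, fun _ hn f hf q hq z hz => no_zero hn f hf q hq z hz⟩

end Pool.Agent.Results.MP_52e642_an.WeakShanksFails
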